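import Mathlib
import Pool.Agent.H374R2.Z.Glue

/-!
The number of radicals of abc triples up to `X`: bound `X (log log X) ^ 5 / log X`.
-/

set_option autoImplicit false

namespace Pool.Agent.W3.RadCount

open Finset Pool.Agent.H374R2.Z

/-- few large prime factors, uniformly in `z` -/
theorem few_uniform : ∃ C : ℝ, 0 < C ∧ ∀ (z : ℝ) (y X : ℕ), 0 < z → z ≤ 1 → 3 ≤ y → y ≤ X →
    (((Icc 1 X).filter
      (fun n => (n.primeFactors.filter (fun p => y < p)).card ≤ 3)).card : ℝ) * z ^ 3 ≤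
      C * X * (Real.log y / Real.log X * (Real.log X / Real.log y) ^ z) := by
  obtain ⟨C₂, hC₂, h2⟩ := H2.wt_sum H1.wt_log_sum
  obtain ⟨C₃, hC₃, h3⟩ := H3.wt_div_sum
  refine ⟨C₂ * C₃, by positivity, ?_⟩
  intro z y X hz0 hz1 hy hyX
  set S := (Icc 1 X).filter (fun n => (n.primeFactors.filter (fun p => y < p)).card ≤ 3) with hS
  have hz3 : 0 < z ^ 3 := by positivity
  have hly : 0 < Real.log y := Real.log_pos (by exact_mod_cast (by omega : 1 < y))
  have hlX : 0 < Real.log X := Real.log_pos (by exact_mod_cast (by omega : 1 < X))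
  have hX0 : (0 : ℝ) ≤ X := Nat.cast_nonneg X
  have hwt0 : ∀ n, 0 ≤ wt z y n := fun n => by unfold wt; positivity
  have hA : (S.card : ℝ) * z ^ 3 ≤ ∑ n ∈ Icc 1 X, wt z y n := by
    calc (S.card : ℝ) * z ^ 3 = ∑ n ∈ S, z ^ 3 := by
          rw [Finset.sum_const, nsmul_eq_mul]
      _ ≤ ∑ n ∈ S, wt z y n := by
          apply Finset.sum_le_sum
          intro n hn
          rw [hS, Finset.mem_filter] at hn
          unfold wt
          exact pow_le_pow_of_le_one hz0.le hz1 hn.2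
      _ ≤ ∑ n ∈ Icc 1 X, wt z y n :=
          Finset.sum_le_sum_of_subset_of_nonneg (Finset.filter_subset _ _)
            (fun n _ _ => hwt0 n)
  have hB := h2 z y X hz0 hz1 (by omega)
  have hC := h3 z y X hz0 hz1 hy hyX
  have hD : Real.log X * ((S.card : ℝ) * z ^ 3) ≤
      C₂ * X * (C₃ * (Real.log y * (Real.log X / Real.log y) ^ z)) := by
    calc Real.log X * ((S.card : ℝ) * z ^ 3) ≤ Real.log X * ∑ n ∈ Icc 1 X, wt z y n :=
          mul_le_mul_of_nonneg_left hA hlX.le
      _ ≤ C₂ * X * ∑ n ∈ Icc 1 X, wt z y n / n := hB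
      _ ≤ _ := mul_le_mul_of_nonneg_left hC (by positivity)
  have hE : (S.card : ℝ) * z ^ 3 ≤
      (C₂ * X * (C₃ * (Real.log y * (Real.log X / Real.log y) ^ z))) / Real.log X := by
    rw [le_div_iff₀ hlX]
    linarith
  refine hE.trans (le_of_eq ?_)
  field_simp

theorem core (a l : ℕ) (hl : 100 ≤ l) (ha : a + 1 ≤ 2 ^ l) :
    8 * (10 * l) * (((19200 * (10 * l) ^ 2) ^ 2 * (a + 1)) + 2) ^ (2 * (10 * l) + 1) * (a + 1) ≤
      2 ^ (50 * l ^ 2) := by
  have h4 := NF.pow_four_le l (by omega)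
  have hE : (19200 * (10 * l) ^ 2) ^ 2 * (a + 1) + 2 ≤ 2 ^ (2 * l + 43) := by
    have e1 : (19200 * (10 * l) ^ 2) ^ 2 = 3686400000000 * l ^ 4 := by ring
    have e2 : (3686400000000 : ℕ) ≤ 2 ^ 42 := by norm_num
    have e3 : 3686400000000 * l ^ 4 * (a + 1) ≤ 2 ^ 42 * 2 ^ l * 2 ^ l :=
      Nat.mul_le_mul (Nat.mul_le_mul e2 h4) ha
    have e4 : 2 ^ 42 * 2 ^ l * 2 ^ l = 2 ^ (2 * l + 42) := by
      rw [← pow_add, ← pow_add]
      congr 1
      omega
    have e5 : 2 ^ (2 * l + 43) = 2 * 2 ^ (2 * l + 42) := by rw [← pow_succ']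
    have e6 : 2 ≤ 2 ^ (2 * l + 42) := by
      calc 2 = 2 ^ 1 := (pow_one 2).symm
        _ ≤ 2 ^ (2 * l + 42) := Nat.pow_le_pow_right (by norm_num) (by omega)
    rw [e1, e5]
    rw [e4] at e3
    omega
  have h80 : 8 * (10 * l) ≤ 2 ^ (l + 7) := by
    have : l < 2 ^ l := Nat.lt_two_pow_self
    have e : 2 ^ (l + 7) = 128 * 2 ^ l := by rw [pow_add]; ring
    rw [e]
    omega
  calc 8 * (10 * l) * (((19200 * (10 * l) ^ 2) ^ 2 * (a + 1)) + 2) ^ (2 * (10 * l) + 1) * (a + 1)
      ≤ 2 ^ (l + 7) * (2 ^ (2 * l + 43)) ^ (2 * (10 * l) + 1) * 2 ^ l :=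
        Nat.mul_le_mul (Nat.mul_le_mul h80 (Nat.pow_le_pow_left hE _)) ha
    _ = 2 ^ ((l + 7) + (2 * l + 43) * (2 * (10 * l) + 1) + l) := by
        rw [← pow_mul, ← pow_add, ← pow_add]
    _ ≤ 2 ^ (50 * l ^ 2) := by
        apply Nat.pow_le_pow_right (by norm_num)
        have h2 : 100 * l ≤ l ^ 2 := by
          rw [pow_two]
          exact Nat.mul_le_mul_right _ hl
        have h3 : (l + 7) + (2 * l + 43) * (2 * (10 * l) + 1) + l = 40 * l ^ 2 + 864 * l + 50 := by
          ring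
        rw [h3]
        omega

theorem num : ∃ X₀ : ℕ, ∀ X l : ℕ, X₀ ≤ X → l = Nat.log 2 (Nat.log 2 X) + 1 →
    100 ≤ l ∧ 8 * (10 * l) * (EE X (10 * l) + 2) ^ (2 * (10 * l) + 1) * (Nat.log 2 X + 1) ≤
      2 ^ (50 * l ^ 2) := by
  obtain ⟨X₀, hX₀⟩ := NF.large_loglog 99
  refine ⟨X₀, fun X l hX hl => ?_⟩
  have h1 : 100 ≤ l := by
    have := hX₀ X hX
    omega
  have h2 : Nat.log 2 X + 1 ≤ 2 ^ l := by
    rw [hl]
    exact Nat.lt_pow_succ_log_self (by norm_num) _
  refine ⟨h1, ?_⟩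
  unfold EE QQ
  exact core (Nat.log 2 X) l h1 h2

/-- the main bound for large `X` -/
theorem large : ∃ C : ℝ, 0 < C ∧ ∃ X₁ : ℕ, ∀ X : ℕ, X₁ ≤ X →
    ({n | n ≤ X ∧ IsRad n}.ncard : ℝ) ≤
      C * X * Real.log (Real.log X) ^ 5 / Real.log X := by
  obtain ⟨X₀, hX₀⟩ := num
  obtain ⟨C₁, hC₁, hfew⟩ := few_uniform
  -- thresholds
  have hev1 : ∀ᶠ X : ℕ in Filter.atTop, 3 ≤ Real.log (Real.log X) :=
    ((Real.tendsto_log_atTop.comp Real.tendsto_log_atTop).comp
      tendsto_natCast_atTop_atTop).eventually_ge_atTop 3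
  have hev2 : ∀ᶠ X : ℕ in Filter.atTop, 3200 * Real.log (Real.log X) ^ 2 ≤ Real.log X := by
    have h1 : (fun x : ℝ => Real.log x ^ 2) =o[Filter.atTop] fun x : ℝ => x := by
      have := isLittleO_log_rpow_atTop (r := 1 / 2) (by norm_num)
      have h2 := this.mul this
      refine (h2.congr' (Filter.Eventually.of_forall fun x => by ring) ?_)
      filter_upwards [Filter.eventually_ge_atTop (0 : ℝ)] with x hx
      rw [← Real.sqrt_eq_rpow]
      exact Real.mul_self_sqrt hx
    have h3 := (h1.def (c := 1 / 3200) (by norm_num))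
    have h4 := (Real.tendsto_log_atTop.comp tendsto_natCast_atTop_atTop).eventually h3
    filter_upwards [h4, hev1] with X hX h5
    simp only [Function.comp_apply, Real.norm_eq_abs] at hX
    have h6 : 0 ≤ Real.log (X : ℝ) := Real.log_natCast_nonneg X
    rw [abs_of_nonneg (sq_nonneg _), abs_of_nonneg h6] at hX
    linarith
  obtain ⟨X₂, hX₂⟩ := Filter.eventually_atTop.1 (hev1.and hev2)
  refine ⟨3 + C₁ * 800 * 3, by positivity, max (max X₀ X₂) 4, fun X hX => ?_⟩
  have hX0 : X₀ ≤ X := le_trans (le_trans (le_max_left _ _) (le_max_left _ _)) hX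
  have hX4 : 4 ≤ X := le_trans (le_max_right _ _) hX
  obtain ⟨hlog3, hll⟩ := hX₂ X (le_trans (le_trans (le_max_right _ _) (le_max_left _ _)) hX)
  have hlogpos : 0 < Real.log X := Real.log_pos (by exact_mod_cast (by omega : 1 < X))
  have hXR : (0 : ℝ) < X := by exact_mod_cast (by omega : 0 < X)
  obtain ⟨hl100, hNF⟩ := hX₀ X (Nat.log 2 (Nat.log 2 X) + 1) hX0 rfl
  set L : ℕ := Nat.log 2 X with hL
  set l : ℕ := Nat.log 2 L + 1 with hl
  have hLu : Real.log X ≤ (L : ℝ) + 1 := FIN.log_le (by omega)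
  have huL : (L : ℝ) ≤ 2 * Real.log X := FIN.le_log (by omega)
  set u : ℝ := Real.log X with hudef
  have hL1 : 1 ≤ L := Nat.log_pos (by norm_num) (by omega)
  -- l in terms of log u
  have hl_le : (l : ℝ) ≤ 4 * Real.log u := by
    have h1 : 2 ^ (l - 1) ≤ L := by
      rw [hl, Nat.add_sub_cancel]
      exact Nat.pow_log_le_self 2 (by omega)
    have h2 : ((2 : ℝ) ^ (l - 1)) ≤ 2 * u := by
      refine le_trans ?_ huL
      exact_mod_cast h1
    have h3 : ((l - 1 : ℕ) : ℝ) * Real.log 2 ≤ Real.log (2 * u) := by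
      rw [← Real.log_pow]
      exact Real.log_le_log (by positivity) h2
    rw [Real.log_mul (by norm_num) (by linarith)] at h3
    have h4 : ((l - 1 : ℕ) : ℝ) = (l : ℝ) - 1 := by
      rw [Nat.cast_sub (by omega)]
      norm_num
    rw [h4] at h3
    have h5 : 0.69 ≤ Real.log 2 := by
      have := Real.log_two_gt_d9
      linarith
    have h6 : Real.log 2 ≤ 0.7 := by
      have := Real.log_two_lt_d9
      linarith
    have h7 : (100 : ℝ) ≤ l := by exact_mod_cast hl100
    have h8 : ((l : ℝ) - 1) * 0.69 ≤ ((l : ℝ) - 1) * Real.log 2 :=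
      mul_le_mul_of_nonneg_left h5 (by linarith)
    linarith
  -- y
  have hLl : L + 1 ≤ 2 ^ l := Nat.lt_pow_succ_log_self (b := 2) (by norm_num) L
  clear_value l L u
  obtain ⟨y, hy⟩ : ∃ y : ℕ, y = 2 ^ (50 * l ^ 2) := ⟨_, rfl⟩
  rw [← hy] at hNF
  have hylog : Real.log (y : ℝ) = (50 * (l : ℝ) ^ 2) * Real.log 2 := by
    rw [hy]
    push_cast
    rw [Real.log_pow]
    push_cast
    ring
  have hlog2lt : Real.log 2 ≤ 1 := by
    have := Real.log_two_lt_d9
    linarith
  have hlog2pos : 0 < Real.log 2 := Real.log_pos (by norm_num)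
  have hylog_le : Real.log (y : ℝ) ≤ 800 * Real.log u ^ 2 := by
    rw [hylog]
    have h1 : (l : ℝ) ^ 2 ≤ 16 * Real.log u ^ 2 := by
      calc (l : ℝ) ^ 2 ≤ (4 * Real.log u) ^ 2 := pow_le_pow_left₀ (Nat.cast_nonneg l) hl_le 2
        _ = 16 * Real.log u ^ 2 := by ring
    have h2 : (0 : ℝ) ≤ (l : ℝ) ^ 2 := by positivity
    calc 50 * (l : ℝ) ^ 2 * Real.log 2 ≤ 50 * (l : ℝ) ^ 2 * 1 :=
          mul_le_mul_of_nonneg_left hlog2lt (by positivity)
      _ ≤ _ := by linarith
  have hyX : y ≤ X := by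
    have h1 : Real.log y ≤ Real.log X := by
      rw [← hudef]
      refine hylog_le.trans (le_trans ?_ hll)
      have : 0 ≤ Real.log u ^ 2 := by positivity
      linarith
    have h2 : (y : ℝ) ≤ X := by
      have hy0 : (0 : ℝ) < y := by rw [hy]; positivity
      exact (Real.log_le_log_iff hy0 hXR).1 h1
    exact_mod_cast h2
  have hy3 : 3 ≤ y := by
    have h2 : 2 ^ 2 ≤ 2 ^ (50 * l ^ 2) := Nat.pow_le_pow_right (by norm_num) (by nlinarith)
    rw [← hy] at h2
    omega
  have hyR : (0 : ℝ) < y := by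
    have : 0 < y := by omega
    exact_mod_cast this
  have hNF' : 8 * (10 * l) * (EE X (10 * l) + 2) ^ (2 * (10 * l) + 1) * (L + 1) ≤ y := hNF
  clear hNF
  have hlyone : 1 ≤ Real.log y := by
    rw [hylog]
    have h7 : (100 : ℝ) ≤ l := by exact_mod_cast hl100
    have h5 : 0.69 ≤ Real.log 2 := by
      have := Real.log_two_gt_d9
      linarith
    have h8 : (100 : ℝ) ^ 2 ≤ (l : ℝ) ^ 2 := pow_le_pow_left₀ (by norm_num) h7 2
    calc (1 : ℝ) ≤ 50 * (100 : ℝ) ^ 2 * 0.69 := by norm_num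
      _ ≤ 50 * (l : ℝ) ^ 2 * Real.log 2 := by
        apply mul_le_mul _ h5 (by norm_num) (by positivity)
        linarith
  -- the three parts
  obtain ⟨hfin, hcount⟩ := main_count (X := X) (W := 10 * l) (y := y) (by omega) (by omega)
    (by omega)
  have hsub : {n | n ≤ X ∧ IsRad n} ⊆ {n | Typ X (10 * l) y n ∧ IsRad n} ∪
      ((↑((Icc 1 X).filter (fun n => 10 * l < n.primeFactors.card)) : Set ℕ) ∪
      (↑((Icc 1 X).filter (fun n => (n.primeFactors.filter (fun p => y < p)).card ≤ 3)) :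
        Set ℕ)) := by
    rintro n ⟨hnX, hr⟩
    have hn1 : 1 ≤ n := by
      obtain ⟨a, b, _, _, _, hab⟩ := hr
      rw [← hab]
      exact FIN.rad_pos _
    by_cases h1 : 10 * l < n.primeFactors.card
    · right; left
      rw [Finset.mem_coe, Finset.mem_filter, Finset.mem_Icc]
      exact ⟨⟨hn1, hnX⟩, h1⟩
    · by_cases h2 : (n.primeFactors.filter (fun p => y < p)).card ≤ 3
      · right; right
        rw [Finset.mem_coe, Finset.mem_filter, Finset.mem_Icc]
        exact ⟨⟨hn1, hnX⟩, h2⟩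
      · left
        exact ⟨⟨hnX, by omega, by omega⟩, hr⟩
  have hcard : {n | n ≤ X ∧ IsRad n}.ncard ≤ {n | Typ X (10 * l) y n ∧ IsRad n}.ncard +
      (((Icc 1 X).filter (fun n => 10 * l < n.primeFactors.card)).card +
      ((Icc 1 X).filter (fun n => (n.primeFactors.filter (fun p => y < p)).card ≤ 3)).card) := by
    refine le_trans (Set.ncard_le_ncard hsub (hfin.union
      ((Finset.finite_toSet _).union (Finset.finite_toSet _)))) ?_
    refine le_trans (Set.ncard_union_le _ _) ?_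
    refine Nat.add_le_add_left ?_ _
    refine le_trans (Set.ncard_union_le _ _) ?_
    rw [Set.ncard_coe_finset, Set.ncard_coe_finset]
  have hcardR : ({n | n ≤ X ∧ IsRad n}.ncard : ℝ) ≤
      ({n | Typ X (10 * l) y n ∧ IsRad n}.ncard : ℝ) +
      ((((Icc 1 X).filter (fun n => 10 * l < n.primeFactors.card)).card : ℝ) +
      (((Icc 1 X).filter
        (fun n => (n.primeFactors.filter (fun p => y < p)).card ≤ 3)).card : ℝ)) := by
    exact_mod_cast hcard
  have hu1 : 1 ≤ u := by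
    by_contra hcon
    push Not at hcon
    have : Real.log u ≤ 0 := Real.log_nonpos hlogpos.le hcon.le
    linarith
  -- part 1
  have hp1 : ({n | Typ X (10 * l) y n ∧ IsRad n}.ncard : ℝ) ≤ X / u := by
    set K : ℕ := 8 * (10 * l) * (EE X (10 * l) + 2) ^ (2 * (10 * l) + 1) with hK
    have h1 : K * (L + 1) ≤ y := hNF'
    clear_value K
    have h1R : (K : ℝ) * ((L : ℝ) + 1) ≤ y := by exact_mod_cast h1
    have h2 : ({n | Typ X (10 * l) y n ∧ IsRad n}.ncard : ℝ) ≤ ((X / y : ℕ) : ℝ) * K := by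
      exact_mod_cast hcount
    have h3 : ((X / y : ℕ) : ℝ) ≤ X / y := Nat.cast_div_le
    refine le_trans h2 (le_trans (mul_le_mul_of_nonneg_right h3 (by positivity)) ?_)
    rw [div_mul_eq_mul_div, div_le_div_iff₀ hyR hlogpos]
    have h4 : (K : ℝ) * u ≤ y := le_trans (mul_le_mul_of_nonneg_left hLu (by positivity)) h1R
    calc (X : ℝ) * K * u = X * (K * u) := by ring
      _ ≤ X * y := mul_le_mul_of_nonneg_left h4 hXR.le
  -- part 2
  have hp2 : (((Icc 1 X).filter (fun n => 10 * l < n.primeFactors.card)).card : ℝ) ≤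
      2 * (X / u) := by
    have h1 := MP.many_primes (X := X) (W := 10 * l) (by omega)
    rw [← hudef] at h1
    have h3 : u ≤ (2 : ℝ) ^ l := by
      refine le_trans hLu ?_
      exact_mod_cast hLl
    have h4 : u ^ 2 ≤ (2 : ℝ) ^ (10 * l) := by
      calc u ^ 2 ≤ ((2 : ℝ) ^ l) ^ 2 := pow_le_pow_left₀ (by linarith) h3 2
        _ = (2 : ℝ) ^ (2 * l) := by rw [← pow_mul, mul_comm]
        _ ≤ (2 : ℝ) ^ (10 * l) := pow_le_pow_right₀ (by norm_num) (by omega)
    set N : ℝ := (((Icc 1 X).filter (fun n => 10 * l < n.primeFactors.card)).card : ℝ) with hN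
    have hN0 : 0 ≤ N := Nat.cast_nonneg _
    clear_value N
    have h5 : N * u ^ 2 ≤ X * (1 + u) :=
      le_trans (mul_le_mul_of_nonneg_left h4 hN0) h1
    have h60 : (X : ℝ) * 1 ≤ X * u := mul_le_mul_of_nonneg_left hu1 hXR.le
    have h6 : N * u ^ 2 ≤ 2 * X * u := by linarith
    rw [← mul_div_assoc, le_div_iff₀ hlogpos]
    have h7 : (N * u) * u ≤ (2 * X) * u := by
      calc (N * u) * u = N * u ^ 2 := by ring
        _ ≤ 2 * X * u := h6
    exact le_of_mul_le_mul_right h7 hlogpos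
  -- part 3
  set v : ℝ := Real.log u with hv
  have hv3 : 3 ≤ v := hlog3
  have hv0 : 0 < v := by linarith
  have hp3 : (((Icc 1 X).filter
      (fun n => (n.primeFactors.filter (fun p => y < p)).card ≤ 3)).card : ℝ) ≤
      C₁ * 800 * 3 * (X * v ^ 5 / u) := by
    have h1 := hfew (1 / v) y X (by positivity) (by rw [div_le_one hv0]; linarith) hy3 hyX
    rw [← hudef] at h1
    have hly : 0 < Real.log (y : ℝ) := by linarith
    have h2 : (u / Real.log y) ^ (1 / v) ≤ 3 := by
      have h3 : u / Real.log y ≤ u := div_le_self (by linarith) hlyone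
      have h4 : (u / Real.log y) ^ (1 / v) ≤ u ^ (1 / v) :=
        Real.rpow_le_rpow (by positivity) h3 (by positivity)
      refine h4.trans ?_
      rw [Real.rpow_def_of_pos hlogpos, ← hv]
      have h5 : v * (1 / v) = 1 := by field_simp
      rw [h5]
      have := Real.exp_one_lt_d9
      linarith
    have h3 : Real.log y / u * (u / Real.log y) ^ (1 / v) ≤ 800 * v ^ 2 / u * 3 := by
      apply mul_le_mul
      · exact div_le_div_of_nonneg_right hylog_le hlogpos.le
      · exact h2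
      · positivity
      · positivity
    have h4 := h1.trans (mul_le_mul_of_nonneg_left h3 (by positivity : 0 ≤ C₁ * (X : ℝ)))
    set N : ℝ := (((Icc 1 X).filter
      (fun n => (n.primeFactors.filter (fun p => y < p)).card ≤ 3)).card : ℝ) with hN
    have h5 : N * (1 / v) ^ 3 * v ^ 3 = N := by
      field_simp
    calc N = N * (1 / v) ^ 3 * v ^ 3 := h5.symm
      _ ≤ (C₁ * X * (800 * v ^ 2 / u * 3)) * v ^ 3 :=
          mul_le_mul_of_nonneg_right h4 (by positivity)
      _ = _ := by ring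
  have hfin' : (X : ℝ) / u ≤ X * v ^ 5 / u := by
    apply div_le_div_of_nonneg_right _ hlogpos.le
    have : (1 : ℝ) ≤ v ^ 5 := one_le_pow₀ (by linarith)
    exact le_mul_of_one_le_right hXR.le this
  calc ({n | n ≤ X ∧ IsRad n}.ncard : ℝ) ≤ X / u + (2 * (X / u) +
        C₁ * 800 * 3 * (X * v ^ 5 / u)) :=
        le_trans hcardR (add_le_add hp1 (add_le_add hp2 hp3))
    _ ≤ (3 + C₁ * 800 * 3) * (X * v ^ 5 / u) := by linarith
    _ = _ := by ring

/-- For `X ≥ 3` the number of radicals of abc triples up to `X` is at most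
`C X (log log X) ^ 5 / log X`. -/
theorem all : ∃ C : ℝ, 0 < C ∧ ∀ X : ℕ, 3 ≤ X →
    ({n | n ≤ X ∧ IsRad n}.ncard : ℝ) ≤
      C * X * Real.log (Real.log X) ^ 5 / Real.log X := by
  obtain ⟨C, hC, X₁, h⟩ := large
  have he3 : (1 : ℝ) < Real.log 3 := by
    rw [Real.lt_log_iff_exp_lt (by norm_num)]
    have := Real.exp_one_lt_d9
    linarith
  have hc0 : 0 < Real.log (Real.log 3) := Real.log_pos he3
  set c : ℝ := Real.log (Real.log 3) ^ 5 with hc
  have hcpos : 0 < c := by positivity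
  set B : ℝ := 2 * (1 + Real.log X₁) / c with hB
  have hlX1 : 0 ≤ Real.log (X₁ : ℝ) := Real.log_natCast_nonneg X₁
  have hBpos : 0 < B := by positivity
  refine ⟨C + B, by positivity, fun X hX => ?_⟩
  have hX3 : (3 : ℝ) ≤ X := by exact_mod_cast hX
  have hu : Real.log 3 ≤ Real.log X := Real.log_le_log (by norm_num) hX3
  have hlogpos : 0 < Real.log X := by linarith
  have hv : Real.log (Real.log 3) ≤ Real.log (Real.log X) := Real.log_le_log (by linarith) hu
  have hv5 : c ≤ Real.log (Real.log X) ^ 5 := pow_le_pow_left₀ hc0.le hv 5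
  have hv50 : 0 ≤ Real.log (Real.log X) ^ 5 := hcpos.le.trans hv5
  by_cases hbig : X₁ ≤ X
  · refine (h X hbig).trans ?_
    apply div_le_div_of_nonneg_right _ hlogpos.le
    apply mul_le_mul_of_nonneg_right _ hv50
    apply mul_le_mul_of_nonneg_right _ (by linarith)
    linarith
  · refine (FIN.trivial_bound X (by omega)).trans ?_
    rw [le_div_iff₀ hlogpos]
    have h1 : Real.log X ≤ Real.log X₁ :=
      Real.log_le_log (by linarith) (by exact_mod_cast (by omega : X ≤ X₁))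
    have h2 : 2 * Real.log X ≤ B * Real.log (Real.log X) ^ 5 := by
      calc 2 * Real.log X ≤ 2 * (1 + Real.log X₁) := by linarith
        _ = B * c := by rw [hB]; field_simp
        _ ≤ _ := mul_le_mul_of_nonneg_left hv5 hBpos.le
    calc 2 * (X : ℝ) * Real.log X = X * (2 * Real.log X) := by ring
      _ ≤ X * (B * Real.log (Real.log X) ^ 5) := mul_le_mul_of_nonneg_left h2 (by linarith)
      _ ≤ (C + B) * X * Real.log (Real.log X) ^ 5 := by
          have h9 : 0 ≤ C * X * Real.log (Real.log X) ^ 5 := by positivity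
          have h10 : (C + B) * X * Real.log (Real.log X) ^ 5 =
            C * X * Real.log (Real.log X) ^ 5 + X * (B * Real.log (Real.log X) ^ 5) := by ring
          linarith

end Pool.Agent.W3.RadCount
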